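import Pool.Agent.H47.GE.Cons

/-!
# Regular graphs with game chromatic index at least (6/5 - ε) Δ

The game, `AliceWinsWith` and `gameIndex` are defined in `Pool.Agent.H47.GE.Game`.
-/

namespace Pool.Agent.Results.MP_ef1b6a_co.RegularSixFifths

open Pool.Agent.H47.GE

/-- For every `ε > 0` and every large `Δ` there is a finite `Δ`-regular bipartite graph whose
game chromatic index is at least `(6/5 - ε) Δ`. -/
theorem result : ∀ ε : ℝ, 0 < ε → ∃ Δ₀ : ℕ, ∀ Δ : ℕ, Δ₀ ≤ Δ →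
    ∃ (V : Type) (_ : Fintype V) (G : SimpleGraph V), Nonempty V ∧
      (∀ v, (G.neighborSet v).ncard = Δ) ∧ G.Colorable 2 ∧
      (∃ k, AliceWinsWith G k) ∧
      (∀ k, AliceWinsWith G k → (6 / 5 - ε) * (Δ : ℝ) ≤ k) ∧
      (6 / 5 - ε) * (Δ : ℝ) ≤ gameIndex G := by
  intro ε hε
  -- the parameter `m`
  obtain ⟨m, hm⟩ : ∃ m : ℕ, 1 / ε ≤ m := exists_nat_ge (1 / ε)
  set M : ℕ := m + 1 with hM
  have hM1 : 1 ≤ M := by omega
  obtain ⟨N, hN⟩ : ∃ N : ℕ, 4 * ((M : ℝ) + 1) / ε ≤ N := exists_nat_ge _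
  refine ⟨max N ((M + 1) * (M + 3)), fun Δ hΔ => ?_⟩
  have hΔN : N ≤ Δ := le_trans (le_max_left _ _) hΔ
  have hΔM : (M + 1) * (M + 3) ≤ Δ := le_trans (le_max_right _ _) hΔ
  set b : ℕ := Δ / (M + 1) with hb
  set r : ℕ := Δ % (M + 1) with hr
  have hbr : (M + 1) * b + r = Δ := Nat.div_add_mod Δ (M + 1)
  have hrlt : r < M + 1 := Nat.mod_lt _ (by omega)
  have hbM : M + 3 ≤ b := by
    rw [hb, Nat.le_div_iff_mul_le (by omega), mul_comm]
    exact hΔM
  have : NeZero b := ⟨by omega⟩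
  obtain ⟨D, -, hD⟩ : ∃ D : Finset (ZMod b), D ⊆ Finset.univ ∧ D.card = r :=
    Finset.exists_subset_card_eq (by rw [Finset.card_univ, ZMod.card]; omega)
  have hex : ∃ k, AliceWinsWith (Gr M b D) k := exists_aliceWinsWith _
  have hlow : ∀ k, AliceWinsWith (Gr M b D) k → (6 / 5 - ε) * (Δ : ℝ) ≤ k := by
    intro k hk
    have h1 : 3 * ((2 * M + 1) * b) ≤ 5 * k := by
      by_contra hc
      exact not_aliceWinsWith_Gr D (by omega) (not_le.1 hc) hk
    have h1' : 3 * ((2 * (M : ℝ) + 1) * b) ≤ 5 * k := by exact_mod_cast h1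
    have hbr' : ((M : ℝ) + 1) * b + r = Δ := by exact_mod_cast hbr
    have hr' : (r : ℝ) ≤ M := by
      have : r ≤ M := by omega
      exact_mod_cast this
    have hM' : 1 / ε ≤ (M : ℝ) := by
      rw [hM]; push_cast; linarith
    have hεM : 1 ≤ ε * M := by
      rw [div_le_iff₀ hε] at hM'
      linarith
    have hΔ' : 4 * ((M : ℝ) + 1) ≤ ε * Δ := by
      have h := hN.trans (by exact_mod_cast hΔN : (N : ℝ) ≤ Δ)
      rw [div_le_iff₀ hε] at h
      linarith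
    have hb0 : (0 : ℝ) ≤ b := Nat.cast_nonneg b
    have hr0 : (0 : ℝ) ≤ r := Nat.cast_nonneg r
    have hM0 : (0 : ℝ) ≤ M := Nat.cast_nonneg M
    -- `3 (2 M + 1) b = 6 (M + 1) b - 3 b`
    have h2 : (3 : ℝ) * b ≤ 3 * (ε * Δ) := by
      have : (b : ℝ) ≤ (ε * M) * b := le_mul_of_one_le_left hb0 hεM
      nlinarith
    nlinarith
  have hcol : (Gr M b D).Colorable 2 := by
    have c : (Gr M b D).Coloring Bool := SimpleGraph.Coloring.mk Prod.fst (by
      rintro p q (⟨h1, h2, -⟩ | ⟨h1, h2, -⟩)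
      · rw [h1, h2]; simp
      · rw [h1, h2]; simp)
    exact c.colorable
  refine ⟨Bool × W M b, inferInstance, Gr M b D, ?_, fun v => ?_, hcol, hex, hlow,
    hlow _ (aliceWinsWith_gameIndex _)⟩
  · obtain ⟨x, -, hx⟩ : ∃ x : Finset (Fin (2 * M + 1)), x ⊆ Finset.univ ∧ x.card = M :=
      Finset.exists_subset_card_eq (by rw [Finset.card_univ, Fintype.card_fin]; omega)
    exact ⟨(false, (⟨x, hx⟩, 0))⟩
  · rw [Gr_regular hM1 D v, hD, hbr]

end Pool.Agent.Results.MP_ef1b6a_co.RegularSixFifths
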